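import Pool.Agent.Y298.LC.Stm

/-!
LC-TOP: winding of loops, topological facts.
-/

set_option autoImplicit false

open Set Filter Metric Topology Complex

namespace Pool.Agent.Y445.LC

open Pool.Agent.Y298.LC

lemma slit_of_lt {u : ℂ} (hu : ‖u‖ < 1) : 1 + u ∈ slitPlane := by
  left
  have h1 := Complex.abs_re_le_norm u
  have h2 := (abs_le.1 h1).1
  rw [Complex.add_re, Complex.one_re]
  linarith

/-- small perturbations of the loop -/
lemma pert {γ γ' : ℝ → ℂ} {z : ℂ} (hγ : ContinuousOn γ (Icc 0 1)) (hγ' : ContinuousOn γ' (Icc 0 1))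
    (h0 : γ 0 = γ 1) (h0' : γ' 0 = γ' 1)
    (h : ∀ τ ∈ Icc (0 : ℝ) 1, ‖γ τ - γ' τ‖ < ‖γ τ - z‖) : Enc γ z ↔ Enc γ' z := by
  have hne : ∀ τ ∈ Icc (0 : ℝ) 1, γ τ - z ≠ 0 := by
    intro τ hτ h1
    have h2 := h τ hτ
    rw [h1, norm_zero] at h2
    exact absurd h2 (not_lt.2 (norm_nonneg _))
  have hu : ∀ τ ∈ Icc (0 : ℝ) 1, ‖(γ' τ - γ τ) / (γ τ - z)‖ < 1 := by
    intro τ hτ
    rw [norm_div, div_lt_one (norm_pos_iff.2 (hne τ hτ)), norm_sub_rev]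
    exact h τ hτ
  have hs : ∀ τ ∈ Icc (0 : ℝ) 1, 1 + (γ' τ - γ τ) / (γ τ - z) ∈ slitPlane :=
    fun τ hτ => slit_of_lt (hu τ hτ)
  have huc : ContinuousOn (fun τ => 1 + (γ' τ - γ τ) / (γ τ - z)) (Icc 0 1) :=
    continuousOn_const.add ((hγ'.sub hγ).div (hγ.sub continuousOn_const) hne)
  have hlc : ContinuousOn (fun τ => Complex.log (1 + (γ' τ - γ τ) / (γ τ - z))) (Icc 0 1) :=
    huc.clog hs
  have hexp : ∀ τ ∈ Icc (0 : ℝ) 1, Complex.exp (Complex.log (1 + (γ' τ - γ τ) / (γ τ - z))) =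
      (γ' τ - z) / (γ τ - z) := by
    intro τ hτ
    rw [Complex.exp_log (slitPlane_ne_zero (hs τ hτ))]
    have := hne τ hτ
    field_simp
    ring
  unfold Enc
  rw [not_iff_not]
  constructor
  · rintro ⟨L, hL, hLe, hL0⟩
    refine ⟨fun τ => L τ + Complex.log (1 + (γ' τ - γ τ) / (γ τ - z)), hL.add hlc, ?_, ?_⟩
    · intro τ hτ
      rw [Complex.exp_add, hLe τ hτ, hexp τ hτ]
      have := hne τ hτ
      field_simp
    · simp only
      rw [hL0, h0, h0']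
  · rintro ⟨L, hL, hLe, hL0⟩
    refine ⟨fun τ => L τ - Complex.log (1 + (γ' τ - γ τ) / (γ τ - z)), hL.sub hlc, ?_, ?_⟩
    · intro τ hτ
      have h1 : γ' τ - z ≠ 0 := by
        rw [← hLe τ hτ]
        exact Complex.exp_ne_zero _
      rw [Complex.exp_sub, hLe τ hτ, hexp τ hτ]
      have := hne τ hτ
      field_simp
    · simp only
      rw [hL0, h0, h0']

/-- points outside a ball containing the loop -/
lemma outside {γ : ℝ → ℂ} {p z : ℂ} {r : ℝ} (hγ : ContinuousOn γ (Icc 0 1)) (h0 : γ 0 = γ 1)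
    (hb : im γ ⊆ ball p r) (hz : z ∉ ball p r) : ¬ Enc γ z := by
  have hlt : ∀ τ ∈ Icc (0 : ℝ) 1, ‖γ τ - p‖ < ‖p - z‖ := by
    intro τ hτ
    have h1 := hb ⟨τ, hτ, rfl⟩
    rw [mem_ball, dist_eq_norm] at h1 hz
    rw [not_lt, norm_sub_rev] at hz
    exact h1.trans_le hz
  have hpz : p - z ≠ 0 := by
    intro h
    have h1 := hlt 0 ⟨le_rfl, zero_le_one⟩
    rw [h, norm_zero] at h1
    exact absurd h1 (not_lt.2 (norm_nonneg _))
  have hs : ∀ τ ∈ Icc (0 : ℝ) 1, 1 + (γ τ - p) / (p - z) ∈ slitPlane := by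
    intro τ hτ
    apply slit_of_lt
    rw [norm_div, div_lt_one (norm_pos_iff.2 hpz)]
    exact hlt τ hτ
  unfold Enc
  rw [not_not]
  refine ⟨fun τ => Complex.log (p - z) + Complex.log (1 + (γ τ - p) / (p - z)), ?_, ?_, ?_⟩
  · exact continuousOn_const.add (ContinuousOn.clog (continuousOn_const.add
      ((hγ.sub continuousOn_const).div_const _)) hs)
  · intro τ hτ
    rw [Complex.exp_add, Complex.exp_log hpz, Complex.exp_log (slitPlane_ne_zero (hs τ hτ))]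
    field_simp
    ring
  · simp only
    rw [h0]

/-- local constancy -/
lemma loc {γ : ℝ → ℂ} (hγ : ContinuousOn γ (Icc 0 1)) (h0 : γ 0 = γ 1) {z : ℂ} (hz : z ∉ im γ) :
    ∃ δ : ℝ, 0 < δ ∧ ∀ z' ∈ ball z δ, z' ∉ im γ ∧ (Enc γ z ↔ Enc γ z') := by
  have hc : IsClosed (im γ) := (isCompact_Icc.image_of_continuousOn hγ).isClosed
  obtain ⟨δ, hδ, hball⟩ := Metric.isOpen_iff.1 hc.isOpen_compl z hz
  refine ⟨δ, hδ, fun z' hz' => ⟨hball hz', ?_⟩⟩
  have h1 : ∀ τ ∈ Icc (0 : ℝ) 1, δ ≤ ‖γ τ - z‖ := by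
    intro τ hτ
    by_contra h
    push Not at h
    have h2 : γ τ ∈ ball z δ := by rw [mem_ball, dist_eq_norm]; exact h
    exact hball h2 ⟨τ, hτ, rfl⟩
  rw [mem_ball, dist_eq_norm] at hz'
  have h2 := pert (γ := γ) (γ' := fun τ => γ τ - (z' - z)) (z := z) hγ
    (hγ.sub continuousOn_const) h0 (by rw [h0]) (by
      intro τ hτ
      have e : γ τ - (γ τ - (z' - z)) = z' - z := by ring
      rw [e]
      exact hz'.trans_le (h1 τ hτ))
  rw [h2]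
  unfold Enc
  have e : ∀ τ, γ τ - (z' - z) - z = γ τ - z' := fun τ => by ring
  simp only [e]

theorem top : S_TOP := by
  refine ⟨?_, ?_, ?_⟩
  · intro γ S hγ h0 hS hd z hz z' hz' hE
    have hA : IsOpen {w : ℂ | w ∉ im γ ∧ Enc γ w} := by
      rw [Metric.isOpen_iff]
      rintro w ⟨hw, hwE⟩
      obtain ⟨δ, hδ, h⟩ := loc hγ h0 hw
      exact ⟨δ, hδ, fun w' hw' => ⟨(h w' hw').1, (h w' hw').2.1 hwE⟩⟩
    have hB : IsOpen {w : ℂ | w ∉ im γ ∧ ¬ Enc γ w} := by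
      rw [Metric.isOpen_iff]
      rintro w ⟨hw, hwE⟩
      obtain ⟨δ, hδ, h⟩ := loc hγ h0 hw
      exact ⟨δ, hδ, fun w' hw' => ⟨(h w' hw').1, fun h' => hwE ((h w' hw').2.2 h')⟩⟩
    have hAB : Disjoint {w : ℂ | w ∉ im γ ∧ Enc γ w} {w : ℂ | w ∉ im γ ∧ ¬ Enc γ w} := by
      rw [Set.disjoint_left]
      rintro w ⟨-, h1⟩ ⟨-, h2⟩
      exact h2 h1
    have hsub : S ⊆ {w : ℂ | w ∉ im γ ∧ Enc γ w} ∪ {w : ℂ | w ∉ im γ ∧ ¬ Enc γ w} := by
      intro w hw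
      have h1 : w ∉ im γ := fun h => (Set.disjoint_left.1 hd) hw h
      by_cases h : Enc γ w
      · exact Or.inl ⟨h1, h⟩
      · exact Or.inr ⟨h1, h⟩
    have h1 : z ∉ im γ := fun h => (Set.disjoint_left.1 hd) hz h
    exact (hS.subset_left_of_subset_union hA hB hAB hsub ⟨z, hz, h1, hE⟩ hz').2
  · intro γ p z r hγ h0 hb hz
    exact outside hγ h0 hb hz
  · intro γ γ' z hγ hγ' h0 h0' h
    exact pert hγ hγ' h0 h0' h

end Pool.Agent.Y445.LC
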